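import Mathlib

set_option autoImplicit false

/-!
The volume fraction of a wedge in the unit ball of three-space is (dihedral angle)/(2 pi).
-/

namespace Pool.TetraTile

open MeasureTheory Set Real

/-- planar sector of opening `θ` (closed), written with linear inequalities -/
def sector (θ : ℝ) : Set (ℝ × ℝ) := {p | 0 ≤ p.2 ∧ p.2 * cos θ ≤ p.1 * sin θ}

lemma measurableSet_sector (θ : ℝ) : MeasurableSet (sector θ) := by
  have h1 : MeasurableSet {p : ℝ × ℝ | 0 ≤ p.2} :=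
    measurableSet_le measurable_const measurable_snd
  have h2 : MeasurableSet {p : ℝ × ℝ | p.2 * cos θ ≤ p.1 * sin θ} :=
    measurableSet_le (measurable_snd.mul_const _) (measurable_fst.mul_const _)
  exact h1.inter h2

def disc (ρ : ℝ) : Set (ℝ × ℝ) := {p | p.1 ^ 2 + p.2 ^ 2 < ρ}

lemma measurableSet_disc (ρ : ℝ) : MeasurableSet (disc ρ) := by
  unfold disc
  exact measurableSet_lt (by fun_prop) (by fun_prop)

lemma polar_mem_sector {θ : ℝ} (h0 : 0 < θ) (hπ : θ < π) {r φ : ℝ} (hr : 0 < r)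
    (hφ1 : -π < φ) (hφ2 : φ < π) :
    (r * cos φ, r * sin φ) ∈ sector θ ↔ φ ∈ Icc 0 θ := by
  unfold sector
  simp only [mem_ofPred_eq, mem_Icc]
  have hs : 0 < sin θ := sin_pos_of_pos_of_lt_pi h0 hπ
  constructor
  · rintro ⟨h1, h2⟩
    have h1' : 0 ≤ sin φ := by
      by_contra hc
      push Not at hc
      nlinarith
    have hφ0 : 0 ≤ φ := by
      by_contra hc
      push Not at hc
      have := sin_neg_of_neg_of_neg_pi_lt hc hφ1
      linarith
    refine ⟨hφ0, ?_⟩
    by_contra hc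
    push Not at hc
    have h3 : 0 < sin (φ - θ) := sin_pos_of_pos_of_lt_pi (by linarith) (by linarith)
    rw [sin_sub] at h3
    nlinarith
  · rintro ⟨h1, h2⟩
    refine ⟨mul_nonneg hr.le (sin_nonneg_of_nonneg_of_le_pi h1 hφ2.le), ?_⟩
    have h3 : 0 ≤ sin (θ - φ) := sin_nonneg_of_nonneg_of_le_pi (by linarith) (by linarith)
    rw [sin_sub] at h3
    nlinarith

/-- the radial factor -/
noncomputable def radK (ρ : ℝ) : ENNReal :=
  ∫⁻ r in Ioi (0 : ℝ), ENNReal.ofReal r * (indicator {s : ℝ | s ^ 2 < ρ} 1 r)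

lemma volume_polar (ρ : ℝ) (A : Set (ℝ × ℝ)) (hA : MeasurableSet A) (B : Set ℝ)
    (hB : MeasurableSet B)
    (h : ∀ r φ : ℝ, 0 < r → -π < φ → φ < π → ((r * cos φ, r * sin φ) ∈ A ↔ φ ∈ B)) :
    volume (A ∩ disc ρ) = radK ρ * volume (B ∩ Ioo (-π) π) := by
  have hAd : MeasurableSet (A ∩ disc ρ) := hA.inter (measurableSet_disc ρ)
  rw [← lintegral_indicator_one hAd, ← lintegral_comp_polarCoord_symm]
  have h1 : ∫⁻ p in polarCoord.target, ENNReal.ofReal p.1 •
        (indicator (A ∩ disc ρ) 1 (polarCoord.symm p) : ENNReal)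
      = ∫⁻ p in polarCoord.target, (ENNReal.ofReal p.1 * (indicator {s : ℝ | s ^ 2 < ρ} 1 p.1)) *
          (indicator B 1 p.2 : ENNReal) := by
    apply setLIntegral_congr_fun polarCoord.open_target.measurableSet
    rintro ⟨r, φ⟩ hp
    rw [polarCoord_target] at hp
    obtain ⟨hr, hφ⟩ := hp
    simp only [mem_Ioi] at hr
    simp only [mem_Ioo] at hφ
    have hm := h r φ hr hφ.1 hφ.2
    have hd : (r * cos φ, r * sin φ) ∈ disc ρ ↔ r ^ 2 < ρ := by
      unfold disc
      simp only [mem_ofPred_eq]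
      have : (r * cos φ) ^ 2 + (r * sin φ) ^ 2 = r ^ 2 := by
        have := sin_sq_add_cos_sq φ
        nlinarith
      rw [this]
    simp only [polarCoord_symm_apply, smul_eq_mul]
    by_cases hx : φ ∈ B <;> by_cases hy : r ^ 2 < ρ
    · rw [indicator_of_mem (show (r * cos φ, r * sin φ) ∈ A ∩ disc ρ from ⟨hm.2 hx, hd.2 hy⟩),
        indicator_of_mem (show r ∈ {s : ℝ | s ^ 2 < ρ} from hy), indicator_of_mem hx]
      simp
    · rw [indicator_of_notMem (show ¬ (r * cos φ, r * sin φ) ∈ A ∩ disc ρ from fun hh => hy (hd.1 hh.2)),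
        indicator_of_notMem (show ¬ r ∈ {s : ℝ | s ^ 2 < ρ} from hy)]
      simp
    · rw [indicator_of_notMem (show ¬ (r * cos φ, r * sin φ) ∈ A ∩ disc ρ from fun hh => hx (hm.1 hh.1)),
        indicator_of_notMem (show ¬ φ ∈ B from hx)]
      simp
    · rw [indicator_of_notMem (show ¬ (r * cos φ, r * sin φ) ∈ A ∩ disc ρ from fun hh => hx (hm.1 hh.1)),
        indicator_of_notMem (show ¬ φ ∈ B from hx)]
      simp
  rw [h1, polarCoord_target, Measure.volume_eq_prod, ← Measure.prod_restrict,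
    lintegral_prod_mul (f := fun r : ℝ => ENNReal.ofReal r * (indicator {s : ℝ | s ^ 2 < ρ} 1 r))
      (g := fun φ : ℝ => (indicator B 1 φ : ENNReal))]
  · unfold radK
    congr 1
    rw [lintegral_indicator_one hB, Measure.restrict_apply hB]
  · apply AEMeasurable.mul
    · exact (ENNReal.measurable_ofReal).aemeasurable
    · exact (measurable_one.indicator (measurableSet_lt (by fun_prop) measurable_const)).aemeasurable
  · exact (measurable_one.indicator hB).aemeasurable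

lemma volume_sector_disc {θ : ℝ} (h0 : 0 < θ) (hπ : θ < π) (ρ : ℝ) :
    volume (sector θ ∩ disc ρ) = ENNReal.ofReal (θ / (2 * π)) * volume (disc ρ) := by
  have hpi := Real.pi_pos
  have h1 := volume_polar ρ (sector θ) (measurableSet_sector θ) (Icc 0 θ) measurableSet_Icc
    (fun r φ hr h1 h2 => polar_mem_sector h0 hπ hr h1 h2)
  have h2 := volume_polar ρ univ MeasurableSet.univ univ MeasurableSet.univ
    (fun r φ _ _ _ => by simp)
  rw [univ_inter, univ_inter, Real.volume_Ioo] at h2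
  have h3 : Icc (0 : ℝ) θ ∩ Ioo (-π) π = Icc 0 θ := by
    apply inter_eq_left.2
    intro x hx
    exact ⟨by linarith [hx.1], by linarith [hx.2]⟩
  rw [h3, Real.volume_Icc] at h1
  rw [h1, h2]
  rw [mul_left_comm, ← ENNReal.ofReal_mul (by positivity)]
  congr 2
  field_simp
  ring

/-- three-space -/
abbrev E3 := EuclideanSpace ℝ (Fin 3)

/-- coordinates (z, (x, y)) -/
noncomputable def toProd : E3 → ℝ × (ℝ × ℝ) := fun x => (x 2, (x 0, x 1))

lemma measurePreserving_toProd : MeasurePreserving toProd volume volume := by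
  have h1 := PiLp.volume_preserving_ofLp (Fin 3)
  have h2 := volume_preserving_piFinSuccAbove (fun _ : Fin 3 => ℝ) 2
  have h3 := (MeasurePreserving.id (volume : Measure ℝ)).prod (volume_preserving_finTwoArrow ℝ)
  have h4 := (h3.comp h2).comp h1
  have h5 : toProd = (Prod.map id (MeasurableEquiv.finTwoArrow (α := ℝ))
      ∘ (MeasurableEquiv.piFinSuccAbove (fun _ : Fin 3 => ℝ) 2)) ∘ (@WithLp.ofLp 2 (Fin 3 → ℝ)) := by
    funext x
    rfl
  rw [h5]
  exact h4

lemma norm_lt_one_iff (x : E3) : ‖x‖ < 1 ↔ x 0 ^ 2 + x 1 ^ 2 < 1 - x 2 ^ 2 := by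
  rw [← sq_lt_one_iff₀ (norm_nonneg x), EuclideanSpace.norm_sq_eq, Fin.sum_univ_three]
  simp only [Real.norm_eq_abs, sq_abs]
  constructor <;> intro h <;> linarith

lemma volume_cyl {A : Set (ℝ × ℝ)} (hA : MeasurableSet A) :
    volume {x : E3 | (x 0, x 1) ∈ A ∧ ‖x‖ < 1}
      = ∫⁻ z : ℝ, volume (A ∩ disc (1 - z ^ 2)) := by
  have hS : MeasurableSet {w : ℝ × (ℝ × ℝ) | w.2 ∈ A ∧ w.2.1 ^ 2 + w.2.2 ^ 2 < 1 - w.1 ^ 2} := by
    have h1 : MeasurableSet {w : ℝ × (ℝ × ℝ) | w.2 ∈ A} := measurable_snd hA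
    have h2 : MeasurableSet {w : ℝ × (ℝ × ℝ) | w.2.1 ^ 2 + w.2.2 ^ 2 < 1 - w.1 ^ 2} :=
      measurableSet_lt
        (((measurable_fst.comp measurable_snd).pow_const 2).add
          ((measurable_snd.comp measurable_snd).pow_const 2))
        (measurable_const.sub (measurable_fst.pow_const 2))
    exact h1.inter h2
  have h : {x : E3 | (x 0, x 1) ∈ A ∧ ‖x‖ < 1}
      = toProd ⁻¹' {w : ℝ × (ℝ × ℝ) | w.2 ∈ A ∧ w.2.1 ^ 2 + w.2.2 ^ 2 < 1 - w.1 ^ 2} := by
    ext x
    simp only [mem_ofPred_eq, mem_preimage, toProd, norm_lt_one_iff]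
  rw [h, measurePreserving_toProd.measure_preimage hS.nullMeasurableSet, Measure.volume_eq_prod,
    Measure.prod_apply hS]
  rfl

lemma volume_sector_ball {θ : ℝ} (h0 : 0 < θ) (hπ : θ < π) :
    volume {x : E3 | (x 0, x 1) ∈ sector θ ∧ ‖x‖ < 1}
      = ENNReal.ofReal (θ / (2 * π)) * volume (Metric.ball (0 : E3) 1) := by
  rw [volume_cyl (measurableSet_sector θ)]
  have h2 : volume (Metric.ball (0 : E3) 1) = ∫⁻ z : ℝ, volume (disc (1 - z ^ 2)) := by
    have h3 := volume_cyl (A := univ) MeasurableSet.univ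
    have h4 : Metric.ball (0 : E3) 1 = {x : E3 | (x 0, x 1) ∈ (univ : Set (ℝ × ℝ)) ∧ ‖x‖ < 1} := by
      ext x
      simp
    rw [h4, h3]
    simp
  rw [h2, ← lintegral_const_mul']
  · simp_rw [volume_sector_disc h0 hπ]
  · exact ENNReal.ofReal_ne_top

open scoped InnerProductSpace

/-- the part of `p` orthogonal to `d` -/
noncomputable def orth (d p : E3) : E3 := p - (⟪d, p⟫_ℝ / ⟪d, d⟫_ℝ) • d

/-- the wedge with edge direction `d` spanned by `p` and `q` -/
def wedge (d p q : E3) : Set E3 :=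
  {z | ∃ t a b : ℝ, 0 ≤ a ∧ 0 ≤ b ∧ z = t • d + a • p + b • q}

lemma inner_orth {d : E3} (hd : d ≠ 0) (p : E3) : ⟪d, orth d p⟫_ℝ = 0 := by
  unfold orth
  rw [inner_sub_right, inner_smul_right]
  have : ⟪d, d⟫_ℝ ≠ 0 := by simpa using hd
  field_simp
  ring

lemma wedge_orth (d p q : E3) : wedge d (orth d p) (orth d q) = wedge d p q := by
  ext z
  constructor
  · rintro ⟨t, a, b, ha, hb, rfl⟩
    refine ⟨t - a * (⟪d, p⟫_ℝ / ⟪d, d⟫_ℝ) - b * (⟪d, q⟫_ℝ / ⟪d, d⟫_ℝ), a, b, ha, hb, ?_⟩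
    unfold orth
    module
  · rintro ⟨t, a, b, ha, hb, rfl⟩
    refine ⟨t + a * (⟪d, p⟫_ℝ / ⟪d, d⟫_ℝ) + b * (⟪d, q⟫_ℝ / ⟪d, d⟫_ℝ), a, b, ha, hb, ?_⟩
    unfold orth
    module

/-- Orthonormal coordinates adapted to `d ⊥ p, q`. -/
lemma exists_basis {d p q : E3} (hdp : ⟪d, p⟫_ℝ = 0) (hdq : ⟪d, q⟫_ℝ = 0)
    (hd : d ≠ 0) (hp : p ≠ 0) (hq : q ≠ 0) (h0 : 0 < sin (InnerProductGeometry.angle p q)) :
    ∃ b : OrthonormalBasis (Fin 3) ℝ E3, p = ‖p‖ • b 0 ∧ d = ‖d‖ • b 2 ∧
      q = (‖q‖ * cos (InnerProductGeometry.angle p q)) • b 0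
        + (‖q‖ * sin (InnerProductGeometry.angle p q)) • b 1 := by
  set θ := InnerProductGeometry.angle p q with hθ
  have hp' : 0 < ‖p‖ := norm_pos_iff.2 hp
  have hq' : 0 < ‖q‖ := norm_pos_iff.2 hq
  have hd' : 0 < ‖d‖ := norm_pos_iff.2 hd
  have hcos : ‖p‖ * ‖q‖ * cos θ = ⟪p, q⟫_ℝ := by
    rw [hθ, mul_comm, InnerProductGeometry.cos_angle_mul_norm_mul_norm]
  have hsc := sin_sq_add_cos_sq θ
  let f0 : E3 := ‖p‖⁻¹ • p
  let f2 : E3 := ‖d‖⁻¹ • d
  let f1 : E3 := (‖q‖ * sin θ)⁻¹ • (q - (‖q‖ * cos θ) • f0)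
  have hpp : ⟪p, p⟫_ℝ = ‖p‖ ^ 2 := real_inner_self_eq_norm_sq p
  have hqq : ⟪q, q⟫_ℝ = ‖q‖ ^ 2 := real_inner_self_eq_norm_sq q
  have hdd : ⟪d, d⟫_ℝ = ‖d‖ ^ 2 := real_inner_self_eq_norm_sq d
  have hpd : ⟪p, d⟫_ℝ = 0 := by rw [real_inner_comm]; exact hdp
  have hqd : ⟪q, d⟫_ℝ = 0 := by rw [real_inner_comm]; exact hdq
  have hqp : ⟪q, p⟫_ℝ = ⟪p, q⟫_ℝ := real_inner_comm _ _
  have i00 : ⟪f0, f0⟫_ℝ = 1 := by
    simp only [f0, inner_smul_left, inner_smul_right, hpp, RCLike.conj_to_real]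
    field_simp
  have i22 : ⟪f2, f2⟫_ℝ = 1 := by
    simp only [f2, inner_smul_left, inner_smul_right, hdd, RCLike.conj_to_real]
    field_simp
  have i02 : ⟪f0, f2⟫_ℝ = 0 := by
    simp only [f0, f2, inner_smul_left, inner_smul_right, hpd, RCLike.conj_to_real]
    ring
  have i0q : ⟪f0, q⟫_ℝ = ‖q‖ * cos θ := by
    simp only [f0, inner_smul_left, RCLike.conj_to_real, ← hcos]
    field_simp
  have iq0 : ⟪q, f0⟫_ℝ = ‖q‖ * cos θ := by rw [real_inner_comm]; exact i0q
  have i01 : ⟪f0, f1⟫_ℝ = 0 := by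
    simp only [f1, inner_smul_right, inner_sub_right, i0q, i00]
    ring
  have i12 : ⟪f1, f2⟫_ℝ = 0 := by
    have h3 : ⟪q, f2⟫_ℝ = 0 := by
      simp only [f2, inner_smul_right, hqd, mul_zero]
    simp only [f1, inner_smul_left, inner_sub_left, h3, i02, RCLike.conj_to_real]
    ring
  have i11 : ⟪f1, f1⟫_ℝ = 1 := by
    have h4 : ⟪q - (‖q‖ * cos θ) • f0, q - (‖q‖ * cos θ) • f0⟫_ℝ = (‖q‖ * sin θ) ^ 2 := by
      simp only [inner_sub_left, inner_sub_right, inner_smul_left, inner_smul_right,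
        RCLike.conj_to_real, hqq, i0q, iq0, i00]
      have : sin θ ^ 2 = 1 - cos θ ^ 2 := by linarith
      rw [mul_pow, this]
      ring
    simp only [f1, inner_smul_left, inner_smul_right, RCLike.conj_to_real, h4]
    field_simp
  have hon : Orthonormal ℝ ![f0, f1, f2] := by
    rw [orthonormal_iff_ite]
    intro i j
    have i10 : ⟪f1, f0⟫_ℝ = 0 := by rw [real_inner_comm]; exact i01
    have i20 : ⟪f2, f0⟫_ℝ = 0 := by rw [real_inner_comm]; exact i02
    have i21 : ⟪f2, f1⟫_ℝ = 0 := by rw [real_inner_comm]; exact i12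
    have hn : ∀ f : E3, ⟪f, f⟫_ℝ = 1 → ‖f‖ = 1 := by
      intro f hf
      rw [real_inner_self_eq_norm_sq] at hf
      nlinarith [norm_nonneg f]
    fin_cases i <;> fin_cases j <;>
      simp [hn _ i00, hn _ i11, hn _ i22, i01, i02, i12, i10, i20, i21]
  have hcard : Fintype.card (Fin 3) = Module.finrank ℝ E3 := by simp
  let B := basisOfOrthonormalOfCardEqFinrank hon hcard
  have hB : ⇑B = ![f0, f1, f2] := coe_basisOfOrthonormalOfCardEqFinrank hon hcard
  let b := B.toOrthonormalBasis (by rw [hB]; exact hon)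
  have hb : ⇑b = ![f0, f1, f2] := by
    rw [Module.Basis.coe_toOrthonormalBasis, hB]
  refine ⟨b, ?_, ?_, ?_⟩
  · rw [hb]
    simp only [Matrix.cons_val_zero, f0]
    rw [smul_smul, mul_inv_cancel₀ hp'.ne', one_smul]
  · rw [hb]
    simp only [Matrix.cons_val, f2]
    rw [smul_smul, mul_inv_cancel₀ hd'.ne', one_smul]
  · rw [hb]
    simp only [Matrix.cons_val_zero, Matrix.cons_val_one, f1]
    rw [smul_smul (‖q‖ * sin θ), mul_inv_cancel₀ (by positivity), one_smul]
    abel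

/-- The volume fraction of a wedge (orthogonal data). -/
lemma volume_wedge_of_orth {d p q : E3} (hdp : ⟪d, p⟫_ℝ = 0) (hdq : ⟪d, q⟫_ℝ = 0)
    (hd : d ≠ 0) (hp : p ≠ 0) (hq : q ≠ 0)
    (h0 : 0 < InnerProductGeometry.angle p q) (hπ : InnerProductGeometry.angle p q < π) :
    volume (wedge d p q ∩ Metric.ball 0 1)
      = ENNReal.ofReal (InnerProductGeometry.angle p q / (2 * π))
        * volume (Metric.ball (0 : E3) 1) := by
  have hs : 0 < sin (InnerProductGeometry.angle p q) := sin_pos_of_pos_of_lt_pi h0 hπ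
  obtain ⟨b, hbp, hbd, hbq⟩ := exists_basis hdp hdq hd hp hq hs
  have hp' : 0 < ‖p‖ := norm_pos_iff.2 hp
  have hq' : 0 < ‖q‖ := norm_pos_iff.2 hq
  have hd' : 0 < ‖d‖ := norm_pos_iff.2 hd
  generalize InnerProductGeometry.angle p q = θ at *
  generalize ‖p‖ = P at *
  generalize ‖q‖ = Q at *
  generalize ‖d‖ = D at *
  rw [← volume_sector_ball h0 hπ]
  have hS : MeasurableSet {x : E3 | (x 0, x 1) ∈ sector θ ∧ ‖x‖ < 1} := by
    have h1 : MeasurableSet {x : E3 | (x 0, x 1) ∈ sector θ} := by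
      have : Measurable (fun x : E3 => (x 0, x 1)) := by fun_prop
      exact this (measurableSet_sector θ)
    have h2 : MeasurableSet {x : E3 | ‖x‖ < 1} := measurableSet_lt measurable_norm measurable_const
    exact h1.inter h2
  rw [← (LinearIsometryEquiv.measurePreserving b.repr).measure_preimage hS.nullMeasurableSet]
  congr 1
  ext z
  simp only [mem_inter_iff, Metric.mem_ball, dist_zero_right, mem_preimage, mem_ofPred_eq,
    LinearIsometryEquiv.norm_map]
  apply and_congr_left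
  intro _
  have hz : z = (b.repr z 0) • b 0 + (b.repr z 1) • b 1 + (b.repr z 2) • b 2 := by
    conv_lhs => rw [← b.sum_repr z]
    rw [Fin.sum_univ_three]
  constructor
  · rintro ⟨t, a, c, ha, hc, hzz⟩
    have e0 : b.repr z 0 = a * P + c * (Q * cos θ) := by
      rw [hzz, hbp, hbq, hbd]
      simp [OrthonormalBasis.repr_self]
    have e1 : b.repr z 1 = c * (Q * sin θ) := by
      rw [hzz, hbp, hbq, hbd]
      simp [OrthonormalBasis.repr_self]
    unfold sector
    simp only [mem_ofPred_eq, e0, e1]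
    refine ⟨by positivity, ?_⟩
    have : 0 ≤ a * P * sin θ := by positivity
    nlinarith
  · intro hz2
    unfold sector at hz2
    simp only [mem_ofPred_eq] at hz2
    obtain ⟨h1, h2⟩ := hz2
    refine ⟨b.repr z 2 / D, (b.repr z 0 * sin θ - b.repr z 1 * cos θ) / (sin θ * P),
      b.repr z 1 / (Q * sin θ), ?_, ?_, ?_⟩
    · apply div_nonneg
      · linarith
      · positivity
    · positivity
    · conv_lhs => rw [hz]
      conv_rhs => rw [hbp, hbq, hbd]
      match_scalars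
      · field_simp
        ring
      · field_simp
      · field_simp

lemma li_three {d p q : E3} (h : LinearIndependent ℝ ![d, p, q]) {x y z : ℝ}
    (h0 : x • d + y • p + z • q = 0) : x = 0 ∧ y = 0 ∧ z = 0 := by
  rw [Fintype.linearIndependent_iff] at h
  have := h ![x, y, z] (by simpa [Fin.sum_univ_three] using h0)
  exact ⟨by simpa using this 0, by simpa using this 1, by simpa using this 2⟩

lemma orth_facts {d p q : E3} (h : LinearIndependent ℝ ![d, p, q]) :
    d ≠ 0 ∧ orth d p ≠ 0 ∧ orth d q ≠ 0 ∧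
      0 < InnerProductGeometry.angle (orth d p) (orth d q) ∧
      InnerProductGeometry.angle (orth d p) (orth d q) < π := by
  have hd : d ≠ 0 := by
    rintro rfl
    have := li_three h (x := 1) (y := 0) (z := 0) (by simp)
    simp at this
  have hp : orth d p ≠ 0 := by
    intro h0
    unfold orth at h0
    have := li_three h (x := -(⟪d, p⟫_ℝ / ⟪d, d⟫_ℝ)) (y := 1) (z := 0) (by rw [← h0]; module)
    simp at this
  have hq : orth d q ≠ 0 := by
    intro h0
    unfold orth at h0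
    have := li_three h (x := -(⟪d, q⟫_ℝ / ⟪d, d⟫_ℝ)) (y := 0) (z := 1) (by rw [← h0]; module)
    simp at this
  have key : ∀ r : ℝ, orth d q ≠ r • orth d p := by
    intro r hr
    unfold orth at hr
    have := li_three h (x := r * (⟪d, p⟫_ℝ / ⟪d, d⟫_ℝ) - (⟪d, q⟫_ℝ / ⟪d, d⟫_ℝ)) (y := -r) (z := 1)
      (by
        have h1 : (q - (⟪d, q⟫_ℝ / ⟪d, d⟫_ℝ) • d) - r • (p - (⟪d, p⟫_ℝ / ⟪d, d⟫_ℝ) • d) = 0 :=
          sub_eq_zero.2 hr
        rw [← h1]
        module)
    exact one_ne_zero this.2.2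
  refine ⟨hd, hp, hq, ?_, ?_⟩
  · rcases (InnerProductGeometry.angle_nonneg (orth d p) (orth d q)).lt_or_eq with h1 | h1
    · exact h1
    · obtain ⟨_, r, _, hr⟩ := InnerProductGeometry.angle_eq_zero_iff.1 h1.symm
      exact absurd hr (key r)
  · rcases (InnerProductGeometry.angle_le_pi (orth d p) (orth d q)).lt_or_eq with h1 | h1
    · exact h1
    · obtain ⟨_, r, _, hr⟩ := InnerProductGeometry.angle_eq_pi_iff.1 h1
      exact absurd hr (key r)

/-- The wedge with edge direction `d` spanned by `p`, `q` takes the fraction `θ / (2π)` of the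
unit ball, where `θ` is the dihedral angle. -/
theorem volume_wedge {d p q : E3} (h : LinearIndependent ℝ ![d, p, q]) :
    volume (wedge d p q ∩ Metric.ball 0 1)
      = ENNReal.ofReal (InnerProductGeometry.angle (orth d p) (orth d q) / (2 * π))
        * volume (Metric.ball (0 : E3) 1) := by
  obtain ⟨hd, hp, hq, h0, hπ⟩ := orth_facts h
  rw [← wedge_orth]
  exact volume_wedge_of_orth (inner_orth hd p) (inner_orth hd q) hd hp hq h0 hπ

end Pool.TetraTile
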